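import Pool.Agent.W751.CD.Stm
import Pool.Agent.H713R5.QJ.TAF

/-! Project CD: the power map and the logarithmic area. -/

set_option autoImplicit false

open Polynomial Filter Topology MeasureTheory

namespace Pool.Agent.W597.CD

open Pool.Agent.W751.CD Pool.Agent.H713R5.QJ

theorem nu_apply (S : Set ℂ) (hS : MeasurableSet S) :
    nu S = ∫⁻ a in S, ENNReal.ofReal ((‖a‖ ^ 2)⁻¹) := by
  unfold nu
  rw [withDensity_apply _ hS]

theorem pow_holds : S_POW := by
  intro n hn E hE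
  have hn0 : n ≠ 0 := by omega
  have hnR : (0 : ℝ) < n := by exact_mod_cast hn
  set g : ℂ → ENNReal := fun ζ => ENNReal.ofReal ((‖ζ‖ ^ 2 * ‖(n : ℂ) * ζ ^ (n - 1)‖ ^ 2)⁻¹) with hg
  have hgm : Measurable g := by
    simp only [hg]
    fun_prop
  have hdeg : 0 < (X ^ n : ℂ[X]).natDegree := by
    rw [natDegree_X_pow]; omega
  have haf := af_holds (X ^ n) g E hdeg hgm hE
  have hev : ev (X ^ n : ℂ[X]) = fun a : ℂ => a ^ n := by
    funext a
    simp [ev]
  have hpre : MeasurableSet ((fun a : ℂ => a ^ n) ⁻¹' E) :=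
    (by fun_prop : Measurable (fun a : ℂ => a ^ n)) hE
  have hne : ∀ᵐ z : ℂ ∂volume, z ≠ 0 := by
    rw [ae_iff]
    simp
  -- right side
  have hR : ∫⁻ z in (ev (X ^ n : ℂ[X])) ⁻¹' E, g z *
      ENNReal.ofReal (‖(derivative (X ^ n : ℂ[X])).eval z‖ ^ 2) =
      nu ((fun a : ℂ => a ^ n) ⁻¹' E) := by
    rw [hev, nu_apply _ hpre]
    refine setLIntegral_congr_fun_ae hpre ?_
    filter_upwards [hne] with z hz _
    have h1 : (derivative (X ^ n : ℂ[X])).eval z = (n : ℂ) * z ^ (n - 1) := by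
      rw [derivative_X_pow]; simp
    rw [h1]
    simp only [hg]
    rw [← ENNReal.ofReal_mul (by positivity)]
    congr 1
    have h2 : ‖(n : ℂ) * z ^ (n - 1)‖ ≠ 0 := by
      rw [norm_ne_zero_iff]
      exact mul_ne_zero (by exact_mod_cast hn0) (pow_ne_zero _ hz)
    have h3 : ‖z‖ ≠ 0 := norm_ne_zero_iff.2 hz
    field_simp
  rw [← hR, ← haf, nu_apply _ hE, ← lintegral_const_mul' _ _ (ENNReal.natCast_ne_top n)]
  refine setLIntegral_congr_fun_ae hE ?_
  filter_upwards [hne] with w hw _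
  have hprim := Complex.isPrimitiveRoot_exp n hn0
  have hnodup := hprim.nthRoots_nodup hw
  have hcard := hprim.card_nthRoots w
  have hex : ∃ α : ℂ, α ^ n = w := by
    obtain ⟨z, hz⟩ := IsAlgClosed.exists_pow_nat_eq w (by omega : 0 < n)
    exact ⟨z, hz⟩
  rw [if_pos hex] at hcard
  have hroots : (X ^ n - C w).roots = nthRoots n w := rfl
  rw [hroots]
  have hval : ∀ ζ ∈ (nthRoots n w).toFinset, g ζ = ENNReal.ofReal (((n : ℝ) ^ 2 * ‖w‖ ^ 2)⁻¹) := by
    intro ζ hζ
    rw [Multiset.mem_toFinset, mem_nthRoots (by omega)] at hζ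
    simp only [hg]
    congr 2
    rw [← hζ, norm_mul, norm_pow, norm_pow, Complex.norm_natCast]
    obtain ⟨k, rfl⟩ : ∃ k, n = k + 1 := ⟨n - 1, by omega⟩
    rw [Nat.add_sub_cancel]
    ring
  rw [Finset.sum_congr rfl hval, Finset.sum_const, Multiset.toFinset_card_of_nodup hnodup, hcard,
    nsmul_eq_mul, ← ENNReal.ofReal_natCast, ← ENNReal.ofReal_mul (by positivity),
    ← ENNReal.ofReal_mul (by positivity)]
  congr 1
  have h3 : ‖w‖ ≠ 0 := norm_ne_zero_iff.2 hw
  field_simp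

end Pool.Agent.W597.CD
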